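import Pool.Agent.TWD.Quant97

/-!
Many twin primes give many good `n`.
-/

set_option autoImplicit false

open Finset Filter Topology

namespace Pool.Agent.TWD

theorem T_succ_le (k : ℕ) : T (k + 1) ≤ T k + 1 := by
  rw [T_eq, T_eq, Nat.count_succ]
  split_ifs <;> omega

theorem exists_le_T_eq {y r : ℕ} (h : r ≤ T y) : ∃ k ≤ y, T k = r := by
  induction y with
  | zero =>
    rw [T_zero] at h
    exact ⟨0, le_refl _, by rw [T_zero]; omega⟩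
  | succ y ih =>
    rcases Nat.lt_or_ge (T y) r with h1 | h1
    · have := T_succ_le y
      exact ⟨y + 1, le_refl _, by omega⟩
    · obtain ⟨k, hk, hk'⟩ := ih h1
      exact ⟨k, by omega, hk'⟩

theorem TT_le (y : ℕ) : T (T y) ≤ ((Icc 1 y).filter (fun k => Tw (T k))).card := by
  refine le_trans (card_le_card ?_) (card_image_le (s := (Icc 1 y).filter (fun k => Tw (T k))) (f := T))
  intro r hr
  rw [mem_filter, mem_range] at hr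
  obtain ⟨k, hk, hkr⟩ := exists_le_T_eq (y := y) (r := r) (by omega)
  rw [mem_image]
  refine ⟨k, ?_, hkr⟩
  rw [mem_filter, mem_Icc]
  refine ⟨⟨?_, hk⟩, by rw [hkr]; exact hr.2⟩
  rcases Nat.eq_zero_or_pos k with h | h
  · exfalso
    rw [h, T_zero] at hkr
    exact not_tw_zero (hkr ▸ hr.2)
  · exact h

theorem cond (h : ∀ᶠ x : ℕ in atTop, Real.sqrt x ≤ T x) : ∃ c : ℝ, 0 < c ∧
    ∀ᶠ N : ℕ in atTop, c * N / Real.log (Real.log (Real.log N)) ≤ (G N : ℝ) := by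
  obtain ⟨c, hc, hq⟩ := quant97
  obtain ⟨x₀, hx⟩ := eventually_atTop.1 h
  refine ⟨c, hc, ?_⟩
  filter_upwards [hq, Pool.Agent.SunP.tendsto_log.eventually_ge_atTop (x₀ + 2),
    Pool.Agent.SunP.tendsto_logloglog.eventually_ge_atTop 2] with N h1 hL hT
  refine le_trans ?_ h1
  obtain ⟨L, hLd⟩ : ∃ L : ℝ, L = Real.log N := ⟨_, rfl⟩
  obtain ⟨T₃, hTd⟩ : ∃ T₃ : ℝ, T₃ = Real.log (Real.log (Real.log N)) := ⟨_, rfl⟩
  rw [← hLd] at hL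
  rw [← hTd] at hT
  rw [← hTd, ← hLd]
  have hx0 : (0 : ℝ) ≤ x₀ := Nat.cast_nonneg _
  have hL2 : 2 ≤ L := by linarith
  have hL0 : 0 < L := by linarith
  have hT0 : 0 < T₃ := by linarith
  -- the number `y = ⌊L ^ 4⌋`
  obtain ⟨y, hy⟩ : ∃ y : ℕ, y = ⌊L ^ 4⌋₊ := ⟨_, rfl⟩
  have hy1 : (y : ℝ) ≤ L ^ 4 := by rw [hy]; exact Nat.floor_le (by positivity)
  have hy2 : L ^ 4 - 1 ≤ y := by rw [hy]; have := Nat.lt_floor_add_one (L ^ 4); linarith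
  have hLL : 4 * L ^ 2 ≤ L ^ 4 := by nlinarith [mul_self_nonneg (L ^ 2 - 4), sq_nonneg L]
  have hy3 : ((x₀ : ℝ)) ^ 2 ≤ y := by
    have : ((x₀ : ℝ) + 2) ^ 2 ≤ L ^ 2 := pow_le_pow_left₀ (by positivity) hL 2
    nlinarith
  have hy4 : x₀ ≤ y := by
    have h2 : x₀ ^ 2 ≤ y := by exact_mod_cast hy3
    nlinarith [Nat.zero_le x₀]
  have hsq : (y : ℝ) ≤ (T y : ℝ) ^ 2 := by
    have h2 := hx y hy4
    have h3 := pow_le_pow_left₀ (Real.sqrt_nonneg _) h2 2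
    rwa [Real.sq_sqrt (Nat.cast_nonneg y)] at h3
  have hTy : x₀ ≤ T y := by
    have h2 : ((x₀ : ℝ)) ^ 2 ≤ (T y : ℝ) ^ 2 := hy3.trans hsq
    have h3 : (x₀ : ℝ) ≤ T y := (sq_le_sq₀ hx0 (Nat.cast_nonneg _)).1 h2
    exact_mod_cast h3
  have hsq2 : (T y : ℝ) ≤ (T (T y) : ℝ) ^ 2 := by
    have h2 := hx (T y) hTy
    have h3 := pow_le_pow_left₀ (Real.sqrt_nonneg _) h2 2
    rwa [Real.sq_sqrt (Nat.cast_nonneg _)] at h3
  have hu : (T (T y) : ℝ) ≤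
      ({k : ℕ | 1 ≤ k ∧ (k : ℝ) ≤ L ^ 4 ∧ Tw (T k)}.ncard : ℝ) := by
    have e : {k : ℕ | 1 ≤ k ∧ (k : ℝ) ≤ L ^ 4 ∧ Tw (T k)} =
        (((Icc 1 y).filter (fun k => Tw (T k)) : Finset ℕ) : Set ℕ) := by
      ext k
      rw [Finset.mem_coe, mem_filter, mem_Icc]
      constructor
      · rintro ⟨a1, a2, a3⟩
        exact ⟨⟨a1, by rw [hy]; exact Nat.le_floor a2⟩, a3⟩
      · rintro ⟨⟨a1, a2⟩, a3⟩
        refine ⟨a1, le_trans ?_ hy1, a3⟩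
        exact_mod_cast a2
    rw [e, Set.ncard_coe_finset]
    exact_mod_cast TT_le y
  have hu4 : (L / 2) ^ 4 ≤ (T (T y) : ℝ) ^ 4 := by
    have h5 : (T y : ℝ) ^ 2 ≤ ((T (T y) : ℝ) ^ 2) ^ 2 :=
      pow_le_pow_left₀ (Nat.cast_nonneg _) hsq2 2
    have e : ((T (T y) : ℝ) ^ 2) ^ 2 = (T (T y) : ℝ) ^ 4 := by ring
    rw [e] at h5
    have h6 : (L / 2) ^ 4 ≤ L ^ 4 - 1 := by
      have h7 : (2 : ℝ) ^ 4 ≤ L ^ 4 := pow_le_pow_left₀ (by norm_num) hL2 4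
      have e2 : (L / 2) ^ 4 = L ^ 4 / 16 := by ring
      rw [e2]
      linarith
    linarith
  have hu1 : L / 2 ≤ (T (T y) : ℝ) :=
    (pow_le_pow_iff_left₀ (by positivity) (Nat.cast_nonneg _) (by norm_num)).1 hu4
  have hmin : L / T₃ ≤ min ({k : ℕ | 1 ≤ k ∧ (k : ℝ) ≤ L ^ 4 ∧ Tw (T k)}.ncard : ℝ) (L / T₃) := by
    refine le_min ?_ le_rfl
    calc L / T₃ ≤ L / 2 := div_le_div_of_nonneg_left hL0.le (by norm_num) hT
      _ ≤ _ := hu1.trans hu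
  calc c * N / T₃ = c * (N / L) * (L / T₃) := by field_simp
    _ ≤ _ := mul_le_mul_of_nonneg_left hmin (by positivity)

end Pool.Agent.TWD
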