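import Mathlib
import Pool.Agent.SunP.Shift

/-!
# MP_d4db49_nt: the counting function of the represented integers and the number of twin primes
-/

set_option autoImplicit false

open Finset Filter Topology

namespace Pool.Agent.TWD

open Pool.Agent.SunP (AM am1 am2 am3)

/-- `q` is the smaller member of a twin prime pair -/
def Tw (q : ℕ) : Prop := q.Prime ∧ (q + 2).Prime

instance : DecidablePred Tw := fun q => inferInstanceAs (Decidable (q.Prime ∧ (q + 2).Prime))

/-- the number of the `q ≤ x` which are the smaller member of a twin prime pair -/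
def T (x : ℕ) : ℕ := ((range (x + 1)).filter Tw).card

/-- there is a prime `p < n` such that `r = T (n - p)` and `r + 2` are prime -/
def Good (n : ℕ) : Prop := ∃ p : ℕ, p.Prime ∧ p < n ∧ Tw (T (n - p))

/-- the number of the good `n ≤ N` -/
noncomputable def G (N : ℕ) : ℕ := {n : ℕ | n ≤ N ∧ Good n}.ncard

/-- there are infinitely many twin prime pairs, or their number is the smaller member of one -/
def Alt : Prop := {q : ℕ | Tw q}.Infinite ∨ Tw {q : ℕ | Tw q}.ncard

/-- the differences `n - p` that are wanted -/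
def K : Set ℕ := {k : ℕ | 1 ≤ k ∧ Tw (T k)}

theorem T_mono : Monotone T := fun _ _ h =>
  card_le_card (filter_subset_filter _ (range_subset_range.2 (by omega)))

theorem T_eq (x : ℕ) : T x = Nat.count Tw (x + 1) := (Nat.count_eq_card_filter_range _ _).symm

theorem not_tw_zero : ¬ Tw 0 := fun h => Nat.not_prime_zero h.1

theorem T_zero : T 0 = 0 := by
  rw [T_eq, Nat.count_succ, Nat.count_zero, if_neg not_tw_zero]

theorem exists_T_eq (hinf : {q : ℕ | Tw q}.Infinite) (r : ℕ) : ∃ k, T k = r := by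
  have h1 : Nat.count Tw (Nat.nth Tw r) = r := Nat.count_nth_of_infinite hinf r
  have h2 : Tw (Nat.nth Tw r) := Nat.nth_mem_of_infinite hinf r
  have h3 : Nat.nth Tw r ≠ 0 := fun h => not_tw_zero (h ▸ h2)
  refine ⟨Nat.nth Tw r - 1, ?_⟩
  rw [T_eq, show Nat.nth Tw r - 1 + 1 = Nat.nth Tw r by omega]
  exact h1

theorem exists_bound (hfin : {q : ℕ | Tw q}.Finite) : ∃ B, ∀ k, B ≤ k → T k = {q : ℕ | Tw q}.ncard := by
  obtain ⟨B, hB⟩ := hfin.bddAbove
  refine ⟨B, fun k hk => ?_⟩
  have e : {q : ℕ | Tw q} = (((range (k + 1)).filter Tw : Finset ℕ) : Set ℕ) := by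
    ext q
    rw [Finset.mem_coe, mem_filter, mem_range]
    exact ⟨fun h => ⟨by have := hB h; omega, h⟩, fun h => h.2⟩
  rw [e, Set.ncard_coe_finset]
  rfl

theorem K_infinite_iff : K.Infinite ↔ Alt := by
  by_cases hinf : {q : ℕ | Tw q}.Infinite
  · refine ⟨fun _ => Or.inl hinf, fun _ hK => ?_⟩
    obtain ⟨B, hB⟩ := hK.bddAbove
    obtain ⟨r, hr, hrB⟩ := hinf.exists_gt (T B)
    obtain ⟨k, hk⟩ := exists_T_eq hinf r
    have hr' : Tw r := hr
    have hk1 : 1 ≤ k := by
      rcases Nat.eq_zero_or_pos k with h | h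
      · subst h
        rw [T_zero] at hk
        exact absurd hr' (hk ▸ not_tw_zero)
      · exact h
    have h1 : k ≤ B := hB ⟨hk1, by rw [hk]; exact hr'⟩
    have h2 := T_mono h1
    omega
  · have hfin := Set.not_infinite.1 hinf
    obtain ⟨B, hB⟩ := exists_bound hfin
    constructor
    · intro hK
      right
      obtain ⟨k, hk, hkB⟩ := hK.exists_gt B
      have := hk.2
      rwa [hB k hkB.le] at this
    · rintro (h | h)
      · exact absurd h hinf
      · refine Set.infinite_of_not_bddAbove ?_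
        rintro ⟨C, hC⟩
        have h1 : (B + C + 1) ∈ K := ⟨by omega, by rw [hB _ (by omega)]; exact h⟩
        have := hC h1
        omega

theorem good_iff (n : ℕ) : Good n ↔ ∃ k ∈ K, k < n ∧ (n - k).Prime := by
  constructor
  · rintro ⟨p, hp, hpn, h⟩
    exact ⟨n - p, ⟨by omega, h⟩, by have := hp.pos; omega, by rwa [show n - (n - p) = p by omega]⟩
  · rintro ⟨k, ⟨hk1, hk⟩, hkn, hp⟩
    exact ⟨n - k, hp, by omega, by rwa [show n - (n - k) = k by omega]⟩

theorem finite_G (N : ℕ) : {n : ℕ | n ≤ N ∧ Good n}.Finite := (Set.finite_Iic N).subset fun _ h => h.1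

/-- the case of finitely many wanted differences -/
theorem G_le (hK : K.Finite) : ∃ C : ℝ, ∀ N : ℕ, 2 ≤ N → (G N : ℝ) ≤ C * N / Real.log N := by
  obtain ⟨C, hC, h⟩ := Pool.Agent.PrimeCircle.primeCounting_le
  refine ⟨hK.toFinset.card * C, fun N hN => ?_⟩
  have h1 : G N ≤ (hK.toFinset.biUnion (AM N)).card := by
    unfold G
    rw [← Set.ncard_coe_finset]
    refine Set.ncard_le_ncard ?_ (Finset.finite_toSet _)
    rintro n ⟨hn, hg⟩
    obtain ⟨k, hk, hkn, hp⟩ := (good_iff n).1 hg
    rw [Finset.mem_coe, mem_biUnion]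
    refine ⟨k, hK.mem_toFinset.2 hk, ?_⟩
    rw [AM, mem_filter, mem_Icc]
    exact ⟨⟨by omega, hn⟩, hkn, hp⟩
  have h2 : (hK.toFinset.biUnion (AM N)).card ≤ hK.toFinset.card * Nat.primeCounting (4 * N) :=
    card_biUnion_le_card_mul _ _ _ fun k _ => am2 N k
  have h3 : (G N : ℝ) ≤ hK.toFinset.card * (Nat.primeCounting (4 * N) : ℝ) := by
    exact_mod_cast h1.trans h2
  refine h3.trans ?_
  rw [mul_assoc, mul_div_assoc]
  exact mul_le_mul_of_nonneg_left (h N hN) (Nat.cast_nonneg _)

/-- many wanted differences give many good `n` -/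
theorem union_ge (S : Finset ℕ) : ∀ δ : ℝ, 0 < δ → ∀ᶠ N : ℕ in atTop,
    ((S.card : ℝ) / 20 - δ) * (N / Real.log N) ≤ ((S.biUnion (AM N)).card : ℝ) := by
  induction S using Finset.induction_on with
  | empty =>
    intro δ hδ
    filter_upwards [Pool.Agent.SunP.tendsto_log.eventually_ge_atTop 1] with N hN
    have : 0 ≤ (N : ℝ) / Real.log N := by positivity
    simp only [card_empty, Nat.cast_zero, zero_div, zero_sub, biUnion_empty]
    nlinarith
  | insert a S ha ih =>
    intro δ hδ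
    obtain ⟨C, hC, hps⟩ := Pool.Agent.PC.pair_sieve
    -- the pairs
    have hpair : ∀ b ∈ S, ∀ᶠ N : ℕ in atTop, ((AM N a ∩ AM N b).card : ℝ) ≤
        δ / (4 * (S.card + 1)) * (N / Real.log N) := by
      intro b hb
      have hab : a ≠ b := fun h => ha (h ▸ hb)
      -- a bound with a constant
      obtain ⟨D, hD⟩ : ∃ D : ℝ, ∀ N : ℕ, 2 ≤ N → ((AM N a ∩ AM N b).card : ℝ) ≤
          D * (N / Real.log N ^ 2) := by
        rcases lt_or_gt_of_ne hab with h | h
        · refine ⟨C * (((b - a : ℕ) : ℝ) / Nat.totient (b - a)), fun N hN => ?_⟩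
          obtain ⟨M, hM⟩ := am3 N a b h
          have h2 := hps M N (b - a) hN (by omega)
          rw [← mul_div_assoc]
          exact le_trans (by exact_mod_cast hM) h2
        · refine ⟨C * (((a - b : ℕ) : ℝ) / Nat.totient (a - b)), fun N hN => ?_⟩
          obtain ⟨M, hM⟩ := am3 N b a h
          have h2 := hps M N (a - b) hN (by omega)
          rw [← mul_div_assoc, inter_comm]
          exact le_trans (by exact_mod_cast hM) h2
      have hη : 0 < δ / (4 * ((S.card : ℝ) + 1)) := by positivity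
      filter_upwards [eventually_ge_atTop 2, Pool.Agent.SunP.tendsto_log.eventually_ge_atTop
        (max 1 (|D| / (δ / (4 * ((S.card : ℝ) + 1)))))] with N hN hlog
      refine (hD N hN).trans ?_
      have hl1 : 1 ≤ Real.log N := (le_max_left _ _).trans hlog
      have hl2 : |D| / (δ / (4 * ((S.card : ℝ) + 1))) ≤ Real.log N := (le_max_right _ _).trans hlog
      rw [div_le_iff₀ hη] at hl2
      have h5 : 0 ≤ (N : ℝ) / Real.log N ^ 2 := by positivity
      calc D * (N / Real.log N ^ 2) ≤ |D| * (N / Real.log N ^ 2) :=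
            mul_le_mul_of_nonneg_right (le_abs_self D) h5
        _ ≤ (Real.log N * (δ / (4 * ((S.card : ℝ) + 1)))) * (N / Real.log N ^ 2) :=
            mul_le_mul_of_nonneg_right hl2 h5
        _ = δ / (4 * (S.card + 1)) * (N / Real.log N) := by
            have : Real.log N ≠ 0 := by positivity
            field_simp
    have hall : ∀ᶠ N : ℕ in atTop, ∀ b ∈ S, ((AM N a ∩ AM N b).card : ℝ) ≤
        δ / (4 * (S.card + 1)) * (N / Real.log N) := (eventually_all_finset S).2 hpair
    filter_upwards [hall, ih (δ / 2) (by positivity), eventually_ge_atTop 2,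
      Pool.Agent.SunP.tendsto_log.eventually_ge_atTop 1,
      Pool.Agent.SunP.ev_pow (20 * a + 1) 1] with N h1 h2 hN hlog hpow
    have hlog0 : 0 < Real.log N := by linarith
    have hcheb := Pool.Agent.Helper20.TwinIndex.cheb hN
    have ham : (Nat.primeCounting N : ℝ) ≤ a + (AM N a).card := by exact_mod_cast am1 N a
    -- the new set
    have h3 : (N : ℝ) / Real.log N / 20 ≤ ((AM N a).card : ℝ) := by
      rw [pow_one] at hpow
      rw [div_div, div_le_iff₀ (by positivity)]
      have hmul := mul_le_mul_of_nonneg_right ham hlog0.le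
      nlinarith
    have h4 : (insert a S).biUnion (AM N) = AM N a ∪ S.biUnion (AM N) := biUnion_insert
    have h5 : ((AM N a ∩ S.biUnion (AM N)).card : ℝ) ≤ δ / 4 * (N / Real.log N) := by
      have e : AM N a ∩ S.biUnion (AM N) = S.biUnion (fun b => AM N a ∩ AM N b) := by
        ext n
        simp only [mem_inter, mem_biUnion]
        constructor
        · rintro ⟨x1, b, x2, x3⟩
          exact ⟨b, x2, x1, x3⟩
        · rintro ⟨b, x2, x1, x3⟩
          exact ⟨x1, b, x2, x3⟩
      have e1 : ((AM N a ∩ S.biUnion (AM N)).card : ℝ) ≤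
          ∑ b ∈ S, ((AM N a ∩ AM N b).card : ℝ) := by
        rw [e]
        exact_mod_cast card_biUnion_le
      have e2 : ∑ b ∈ S, ((AM N a ∩ AM N b).card : ℝ) ≤
          S.card * (δ / (4 * (S.card + 1)) * (N / Real.log N)) := by
        rw [← nsmul_eq_mul]
        exact sum_le_card_nsmul _ _ _ h1
      refine e1.trans (e2.trans ?_)
      have h6 : 0 ≤ (N : ℝ) / Real.log N := by positivity
      rw [← mul_assoc]
      refine mul_le_mul_of_nonneg_right ?_ h6
      rw [mul_div_assoc', div_le_div_iff₀ (by positivity) (by norm_num)]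
      nlinarith [(Nat.cast_nonneg S.card : (0 : ℝ) ≤ (S.card : ℝ))]
    have h7 : ((AM N a ∪ S.biUnion (AM N)).card : ℝ) + ((AM N a ∩ S.biUnion (AM N)).card : ℝ) =
        (AM N a).card + (S.biUnion (AM N)).card := by exact_mod_cast card_union_add_card_inter _ _
    rw [h4, card_insert_of_notMem ha]
    push_cast
    have h6 : 0 ≤ (N : ℝ) / Real.log N := by positivity
    nlinarith

theorem G_tendsto (hK : K.Infinite) :
    Tendsto (fun N : ℕ => (G N : ℝ) * Real.log N / N) atTop atTop := by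
  rw [tendsto_atTop]
  intro C
  obtain ⟨M, hM⟩ : ∃ M : ℕ, 20 * (C + 1) ≤ M := exists_nat_ge _
  obtain ⟨S, hS, hcard⟩ := hK.exists_subset_card_eq M
  filter_upwards [union_ge S 1 one_pos, Pool.Agent.SunP.tendsto_log.eventually_ge_atTop 1,
    eventually_ge_atTop 1] with N h1 h2 h3
  have h4 : (S.biUnion (AM N)).card ≤ G N := by
    unfold G
    rw [← Set.ncard_coe_finset]
    refine Set.ncard_le_ncard ?_ (finite_G N)
    intro n hn
    rw [Finset.mem_coe, mem_biUnion] at hn
    obtain ⟨k, hk, hn⟩ := hn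
    rw [AM, mem_filter, mem_Icc] at hn
    exact ⟨hn.1.2, (good_iff n).2 ⟨k, hS hk, hn.2.1, hn.2.2⟩⟩
  have h5 : ((S.biUnion (AM N)).card : ℝ) ≤ G N := by exact_mod_cast h4
  rw [hcard] at h1
  have hN : (0 : ℝ) < N := by exact_mod_cast h3
  have hlog : 0 < Real.log N := by linarith
  rw [le_div_iff₀ hN]
  have h6 : C * (N / Real.log N) ≤ (G N : ℝ) := by
    refine le_trans ?_ (h1.trans h5)
    refine mul_le_mul_of_nonneg_right ?_ (by positivity)
    linarith
  calc C * N = C * (N / Real.log N) * Real.log N := by field_simp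
    _ ≤ G N * Real.log N := mul_le_mul_of_nonneg_right h6 hlog.le

theorem all_good (hfin : {q : ℕ | Tw q}.Finite) (h : Tw {q : ℕ | Tw q}.ncard) :
    ∀ᶠ n : ℕ in atTop, Good n := by
  obtain ⟨B, hB⟩ := exists_bound hfin
  filter_upwards [eventually_ge_atTop (B + 3)] with n hn
  exact ⟨2, Nat.prime_two, by omega, by rw [hB _ (by omega)]; exact h⟩

theorem G_large (h : ∀ᶠ n : ℕ in atTop, Good n) (C : ℝ) :
    ∃ N : ℕ, 2 ≤ N ∧ C * N / Real.log N < G N := by
  obtain ⟨n₀, hn⟩ := eventually_atTop.1 h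
  obtain ⟨m, hm⟩ := exists_nat_ge |C|
  obtain ⟨N, hN, hlog⟩ := ((eventually_ge_atTop (2 * n₀ + 2 * m + 4)).and
    (Pool.Agent.SunP.tendsto_log.eventually_ge_atTop (2 * |C| + 1))).exists
  refine ⟨N, by omega, ?_⟩
  have hC := abs_nonneg C
  have hlog0 : 0 < Real.log N := by linarith
  have h1 : N ≤ 2 * G N + 1 := by
    have h2 : (Icc n₀ N).card ≤ G N := by
      unfold G
      rw [← Set.ncard_coe_finset]
      refine Set.ncard_le_ncard ?_ (finite_G N)
      intro n hn'
      rw [Finset.mem_coe, mem_Icc] at hn'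
      exact ⟨hn'.2, hn n hn'.1⟩
    rw [Nat.card_Icc] at h2
    omega
  have h2 : (N : ℝ) ≤ 2 * G N + 1 := by exact_mod_cast h1
  have hN2 : (2 : ℝ) ≤ N := by exact_mod_cast (show 2 ≤ N by omega)
  rw [div_lt_iff₀ hlog0]
  have h3 : C * N ≤ |C| * N := mul_le_mul_of_nonneg_right (le_abs_self C) (by linarith)
  have hN3 : (2 * m + 4 : ℝ) ≤ N := by exact_mod_cast (show 2 * m + 4 ≤ N by omega)
  have h4 : |C| < G N := by linarith
  have h6 : |C| * N ≤ |C| * (2 * G N + 1) := mul_le_mul_of_nonneg_left h2 hC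
  have h5 : (G N : ℝ) * (2 * |C| + 1) ≤ G N * Real.log N :=
    mul_le_mul_of_nonneg_left hlog (Nat.cast_nonneg _)
  nlinarith

theorem main :
    (Alt ↔ Tendsto (fun N : ℕ => (G N : ℝ) * Real.log N / N) atTop atTop) ∧
    (Alt ↔ ∀ C : ℝ, ∃ N : ℕ, 2 ≤ N ∧ C * N / Real.log N < G N) ∧
    ((∀ᶠ n : ℕ in atTop, Good n) → Alt) ∧
    ({q : ℕ | Tw q}.Finite → Alt → ∀ᶠ n : ℕ in atTop, Good n) := by
  have h1 : Alt → Tendsto (fun N : ℕ => (G N : ℝ) * Real.log N / N) atTop atTop := fun h =>
    G_tendsto (K_infinite_iff.2 h)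
  have h2 : Tendsto (fun N : ℕ => (G N : ℝ) * Real.log N / N) atTop atTop →
      ∀ C : ℝ, ∃ N : ℕ, 2 ≤ N ∧ C * N / Real.log N < G N := by
    intro h C
    obtain ⟨N, hN, h3⟩ := ((h.eventually_gt_atTop C).and (eventually_ge_atTop 2)).exists
    refine ⟨N, h3, ?_⟩
    have hN0 : (0 : ℝ) < N := by exact_mod_cast (show 0 < N by omega)
    have hlog : 0 < Real.log N := Real.log_pos (by exact_mod_cast (show 1 < N by omega))
    rw [lt_div_iff₀ hN0] at hN
    rwa [div_lt_iff₀ hlog]
  have h3 : (∀ C : ℝ, ∃ N : ℕ, 2 ≤ N ∧ C * N / Real.log N < G N) → Alt := by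
    intro h
    rw [← K_infinite_iff]
    intro hK
    obtain ⟨C, hC⟩ := G_le hK
    obtain ⟨N, hN, h4⟩ := h C
    exact absurd (hC N hN) (not_le.2 h4)
  refine ⟨⟨h1, fun h => h3 (h2 h)⟩, ⟨fun h => h2 (h1 h), h3⟩, fun h => h3 (G_large h),
    fun hfin h => ?_⟩
  rcases h with h | h
  · exact absurd hfin h
  · exact all_good hfin h

end Pool.Agent.TWD
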