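import Pool.Agent.TWD.Main
import Pool.Agent.SunP.Engine
import Pool.Agent.SunP.Ratio

/-!
The lower bound for the number of the good `n ≤ N` by the number of the wanted differences up to
`(log N)^4` (helper97's version; helper85 writes `quant`).
-/

set_option autoImplicit false

open Finset Filter Topology

namespace Pool.Agent.TWD

open Pool.Agent.SunP (AM am1 am2 am3 ev_basic ratio_le second_moment ceil_log)

theorem engine2 : ∃ c : ℝ, 0 < c ∧ ∀ᶠ N : ℕ in atTop, ∀ A : ℕ → Finset ℕ,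
    (∀ x, Nat.primeCounting N ≤ x + (A x).card) →
    (∀ x ≤ N, (A x).card ≤ Nat.primeCounting (4 * N)) →
    (∀ x x', x < x' → ∃ M, (A x ∩ A x').card ≤
      ((Ioc M (M + N)).filter (fun n => n.Prime ∧ (n + (x' - x)).Prime)).card) →
    ∀ X : Finset ℕ, (∀ x ∈ X, (x : ℝ) ≤ Real.log N ^ 4) →
    c * (N / Real.log N) * min (X.card : ℝ) (Real.log N / Real.log (Real.log (Real.log N))) ≤
      (X.biUnion A).card := by
  obtain ⟨C1, hC1, hup⟩ := Pool.Agent.PrimeCircle.primeCounting_le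
  obtain ⟨C2, hC2, hps⟩ := Pool.Agent.PC.pair_sieve
  obtain ⟨c0, hc0, hrho⟩ := Pool.Agent.GBQ.thm_RhoLow
  obtain ⟨D, hD⟩ : ∃ D : ℝ, D = C2 * (Real.exp 4 * (2 / c0)) := ⟨_, rfl⟩
  have hDpos : 0 < D := by rw [hD]; positivity
  refine ⟨1 / (400 * (C1 + 2 * D)), by positivity, ?_⟩
  filter_upwards [ev_basic, eventually_ge_atTop 2] with N hN hN2 A h1 h2 h3 X hX
  obtain ⟨hT, h20, hL, hLL⟩ := hN
  obtain ⟨T, hTdef⟩ : ∃ T : ℝ, T = Real.log (Real.log (Real.log N)) := ⟨_, rfl⟩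
  obtain ⟨L, hLdef⟩ : ∃ L : ℝ, L = Real.log N := ⟨_, rfl⟩
  rw [← hTdef] at hT ⊢
  have hNpos : (0 : ℝ) < N := by exact_mod_cast (show 0 < N by omega)
  have hL1' : 1 ≤ L := by rw [hLdef]; exact hL
  have hTL : T ≤ L := by
    rw [hTdef, hLdef]
    exact (Real.log_le_self (by linarith)).trans (Real.log_le_self (by linarith))
  have hT0 : 0 < T := by linarith
  have hLT : 1 ≤ L / T := by rw [le_div_iff₀ hT0]; linarith
  obtain ⟨X', hX'sub, hX'card⟩ := Finset.exists_subset_card_eq (min_le_left X.card ⌈L / T⌉₊)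
  have hs2 : (X'.card : ℝ) * T ≤ 2 * L := by
    have k1 : (X'.card : ℝ) ≤ ⌈L / T⌉₊ := by
      rw [hX'card]
      exact_mod_cast min_le_right _ _
    have k2 := Nat.ceil_lt_add_one (by linarith : 0 ≤ L / T)
    have k3 : (X'.card : ℝ) ≤ 2 * (L / T) := by linarith
    calc (X'.card : ℝ) * T ≤ 2 * (L / T) * T := mul_le_mul_of_nonneg_right k3 hT0.le
      _ = 2 * L := by field_simp
  have hs1 : min (X.card : ℝ) (L / T) ≤ X'.card := by
    rw [hX'card]
    push_cast
    exact min_le_min le_rfl (Nat.le_ceil _)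
  have hmono : ((X'.biUnion A).card : ℝ) ≤ (X.biUnion A).card := by
    exact_mod_cast Finset.card_le_card (Finset.biUnion_subset_biUnion_of_subset_left A hX'sub)
  refine le_trans ?_ hmono
  have hL1 : 1 ≤ L := by rw [hLdef]; exact hL
  have hLpos : 0 < L := by linarith
  -- lower bound for each set
  have ha : ∀ x ∈ X', (N : ℝ) / (20 * L) ≤ (A x).card := by
    intro x hx
    have hx4 : (x : ℝ) ≤ L ^ 4 := by rw [hLdef]; exact hX x (hX'sub hx)
    have hch := Pool.Agent.Helper20.TwinIndex.cheb hN2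
    rw [← hLdef] at hch
    have h1x : (Nat.primeCounting N : ℝ) ≤ x + (A x).card := by exact_mod_cast h1 x
    have h20' : 20 * L ^ 5 ≤ N := by rw [hLdef]; exact h20
    rw [div_le_iff₀ (by positivity)]
    nlinarith [mul_pos hLpos hLpos, mul_le_mul_of_nonneg_left h1x hLpos.le,
      mul_le_mul_of_nonneg_left hx4 hLpos.le]
  have hb : ∀ x ∈ X', ((A x).card : ℝ) ≤ C1 * N / L := by
    intro x hx
    have hx4 : (x : ℝ) ≤ L ^ 4 := by rw [hLdef]; exact hX x (hX'sub hx)
    have h20' : 20 * L ^ 5 ≤ N := by rw [hLdef]; exact h20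
    have hxN : x ≤ N := by
      have : (x : ℝ) ≤ N := by
        have h4 : L ^ 4 ≤ L ^ 5 := pow_le_pow_right₀ hL1 (by norm_num)
        have h5 : (0 : ℝ) ≤ L ^ 5 := by positivity
        linarith
      exact_mod_cast this
    have := hup N hN2
    rw [← hLdef] at this
    refine le_trans ?_ this
    exact_mod_cast h2 x hxN
  have hd : ∀ x ∈ X', ∀ x' ∈ X', x < x' → ((A x ∩ A x').card : ℝ) ≤ D * T * N / L ^ 2 := by
    intro x _ x' hx' hlt
    obtain ⟨M, hM⟩ := h3 x x' hlt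
    have hMr : ((A x ∩ A x').card : ℝ) ≤
      ((Ioc M (M + N)).filter (fun n => n.Prime ∧ (n + (x' - x)).Prime)).card := by
      exact_mod_cast hM
    refine hMr.trans ((hps M N (x' - x) hN2 (by omega)).trans ?_)
    rw [← hLdef]
    obtain ⟨y, hy⟩ : ∃ y : ℕ, y = ⌈4 * Real.log (Real.log N)⌉₊ := ⟨_, rfl⟩
    have hyr : 4 * Real.log (Real.log N) ≤ y := by rw [hy]; exact Nat.le_ceil _
    have hy2 : 2 ≤ y := by
      have : (2 : ℝ) ≤ y := by linarith
      exact_mod_cast this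
    have hxy : x' - x ≤ 4 ^ y := by
      have hx4 : (x' : ℝ) ≤ L ^ 4 := by rw [hLdef]; exact hX x' (hX'sub hx')
      have e1 : L ^ 4 ≤ Real.exp y := by
        have : L ^ 4 = Real.exp (4 * Real.log L) := by
          have e := Real.exp_nat_mul (Real.log L) 4
          rw [Real.exp_log hLpos] at e
          rw [← e]
          norm_num
        rw [this]
        apply Real.exp_le_exp.2
        rw [hLdef]
        exact hyr
      have e2 : Real.exp y ≤ (4 : ℝ) ^ y := by
        rw [← Real.exp_one_pow]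
        apply pow_le_pow_left₀ (Real.exp_pos 1).le
        have := Real.exp_one_lt_d9
        linarith
      have e3 : (x' : ℝ) ≤ ((4 ^ y : ℕ) : ℝ) := by push_cast; linarith
      have e4 : x' ≤ 4 ^ y := by exact_mod_cast e3
      omega
    have hr := ratio_le (x' - x) y (by omega) hy2 hxy
    have hrh := hrho y hy2
    have hlogy : Real.log (y : ℝ) ≤ 2 * T := by
      rw [hy, hTdef]
      exact ceil_log hLL
    have hy2r : (2 : ℝ) ≤ y := by exact_mod_cast hy2
    have hlogy0 : 0 < Real.log (y : ℝ) := Real.log_pos (by linarith)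
    have hinv : (Pool.Agent.GBQ.rho y)⁻¹ ≤ 2 / c0 * T := by
      calc (Pool.Agent.GBQ.rho y)⁻¹ ≤ (c0 / Real.log y)⁻¹ := by
            apply inv_anti₀ (by positivity) hrh
        _ = Real.log y / c0 := by rw [inv_div]
        _ ≤ 2 * T / c0 := by gcongr
        _ = _ := by ring
    have hratio : ((x' - x : ℕ) : ℝ) / Nat.totient (x' - x) ≤ Real.exp 4 * (2 / c0 * T) :=
      hr.trans (mul_le_mul_of_nonneg_left hinv (Real.exp_pos 4).le)
    have : C2 * (((x' - x : ℕ) : ℝ) / Nat.totient (x' - x)) * N ≤ D * T * N := by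
      rw [hD]
      apply mul_le_mul_of_nonneg_right _ hNpos.le
      calc C2 * (((x' - x : ℕ) : ℝ) / Nat.totient (x' - x)) ≤ C2 * (Real.exp 4 * (2 / c0 * T)) :=
            mul_le_mul_of_nonneg_left hratio hC2.le
        _ = _ := by ring
    exact div_le_div_of_nonneg_right this (by positivity)
  have hsm := second_moment X' A (N / (20 * L)) (C1 * N / L) (D * T * N / L ^ 2) (by positivity)
    ha hb hd (by positivity)
  obtain ⟨U, hU⟩ : ∃ U : ℝ, U = (X'.biUnion A).card := ⟨_, rfl⟩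
  obtain ⟨s, hs⟩ : ∃ s : ℝ, s = X'.card := ⟨_, rfl⟩
  rw [← hs] at hs1 hs2 hsm
  rw [← hU] at hsm ⊢
  rw [← hLdef]
  have hU0 : 0 ≤ U := by rw [hU]; exact Nat.cast_nonneg _
  have hs0 : 0 ≤ s := by rw [hs]; exact Nat.cast_nonneg _
  obtain ⟨W, hW⟩ : ∃ W : ℝ, W = N / L := ⟨_, rfl⟩
  have hW0 : 0 < W := by rw [hW]; positivity
  rw [← hW]
  have hCD : 0 < C1 + 2 * D := by positivity
  have k0 : s * W ≤ 400 * (C1 + 2 * D) * U := by
    rcases eq_or_lt_of_le hs0 with h0 | h0
    · rw [← h0, zero_mul]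
      positivity
    have e1 : (N : ℝ) / (20 * L) = W / 20 := by rw [hW]; field_simp
    have e2 : C1 * N / L = C1 * W := by rw [hW]; ring
    have e3 : D * T * N / L ^ 2 = D * T * W / L := by rw [hW]; field_simp
    rw [e1, e2, e3] at hsm
    have k1 : s ^ 2 * (D * T * W / L) ≤ s * (2 * D * W) := by
      have : s * (T / L) ≤ 2 := by
        rw [← mul_div_assoc, div_le_iff₀ hLpos]
        linarith
      calc s ^ 2 * (D * T * W / L) = s * (D * W) * (s * (T / L)) := by ring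
        _ ≤ s * (D * W) * 2 := mul_le_mul_of_nonneg_left this (by positivity)
        _ = s * (2 * D * W) := by ring
    have k2 : (s * (W / 20)) ^ 2 ≤ U * (s * W * (C1 + 2 * D)) := by
      refine hsm.trans (mul_le_mul_of_nonneg_left ?_ hU0)
      nlinarith
    have hsW : 0 < s * W := by positivity
    have k3 : (s * W) * (s * W) ≤ (s * W) * (400 * (C1 + 2 * D) * U) := by nlinarith
    exact le_of_mul_le_mul_left k3 hsW
  have k4 : W * min (X.card : ℝ) (L / T) ≤ 400 * (C1 + 2 * D) * U :=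
    le_trans (by rw [mul_comm]; exact mul_le_mul_of_nonneg_right hs1 hW0.le) k0
  have k5 : 1 / (400 * (C1 + 2 * D)) * (W * min (X.card : ℝ) (L / T)) ≤
      1 / (400 * (C1 + 2 * D)) * (400 * (C1 + 2 * D) * U) :=
    mul_le_mul_of_nonneg_left k4 (by positivity)
  have e4 : 1 / (400 * (C1 + 2 * D)) * (400 * (C1 + 2 * D) * U) = U := by field_simp
  rw [e4] at k5
  rw [mul_assoc]
  exact k5

theorem quant97 : ∃ c : ℝ, 0 < c ∧ ∀ᶠ N : ℕ in atTop,
    c * (N / Real.log N) * min ({k : ℕ | 1 ≤ k ∧ (k : ℝ) ≤ Real.log N ^ 4 ∧ Tw (TWD.T k)}.ncard : ℝ)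
      (Real.log N / Real.log (Real.log (Real.log N))) ≤ (G N : ℝ) := by
  obtain ⟨c, hc, h⟩ := engine2
  refine ⟨c, hc, ?_⟩
  filter_upwards [h] with N hN
  have hfin : {k : ℕ | 1 ≤ k ∧ (k : ℝ) ≤ Real.log N ^ 4 ∧ Tw (TWD.T k)}.Finite := by
    refine (Set.finite_Iic ⌊Real.log N ^ 4⌋₊).subset ?_
    rintro k ⟨-, hk, -⟩
    exact Nat.le_floor hk
  have h1 := hN (AM N) (am1 N) (fun x _ => am2 N x) (am3 N) hfin.toFinset
    (fun x hx => ((hfin.mem_toFinset).1 hx).2.1)
  rw [Set.ncard_eq_toFinset_card _ hfin]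
  refine h1.trans ?_
  have h4 : (hfin.toFinset.biUnion (AM N)).card ≤ G N := by
    unfold G
    rw [← Set.ncard_coe_finset]
    refine Set.ncard_le_ncard ?_ (finite_G N)
    intro n hn
    rw [Finset.mem_coe, mem_biUnion] at hn
    obtain ⟨k, hk, hn⟩ := hn
    rw [AM, mem_filter, mem_Icc] at hn
    have hk' := (hfin.mem_toFinset).1 hk
    exact ⟨hn.1.2, (good_iff n).2 ⟨k, ⟨hk'.1, hk'.2.2⟩, hn.2.1, hn.2.2⟩⟩
  exact_mod_cast h4

end Pool.Agent.TWD
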