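import Pool.Agent.TWD.Main

/-!
The upper bound for the number of the good `n ≤ N`.
-/

set_option autoImplicit false

open Finset Filter Topology

namespace Pool.Agent.TWD

open Pool.Agent.SunP (AM am1 am2 am3)

theorem upper : ∃ C : ℝ, 0 < C ∧ ∀ N : ℕ, 2 ≤ N →
    (G N : ℝ) ≤ C * (N / Real.log N) * ({k : ℕ | 1 ≤ k ∧ k ≤ N ∧ Tw (T k)}.ncard : ℝ) := by
  obtain ⟨C, hC, h⟩ := Pool.Agent.PrimeCircle.primeCounting_le
  refine ⟨C, hC, fun N hN => ?_⟩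
  obtain ⟨S, hS⟩ : ∃ S : Finset ℕ, S = (Icc 1 N).filter (fun k => Tw (T k)) := ⟨_, rfl⟩
  have e : {k : ℕ | 1 ≤ k ∧ k ≤ N ∧ Tw (T k)} = (S : Set ℕ) := by
    ext k
    rw [hS, Finset.mem_coe, mem_filter, mem_Icc]
    exact ⟨fun h => ⟨⟨h.1, h.2.1⟩, h.2.2⟩, fun h => ⟨h.1.1, h.1.2, h.2⟩⟩
  rw [e, Set.ncard_coe_finset]
  have h1 : G N ≤ (S.biUnion (AM N)).card := by
    unfold G
    rw [← Set.ncard_coe_finset]
    refine Set.ncard_le_ncard ?_ (Finset.finite_toSet _)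
    rintro n ⟨hn, hg⟩
    obtain ⟨k, hk, hkn, hp⟩ := (good_iff n).1 hg
    rw [Finset.mem_coe, mem_biUnion]
    refine ⟨k, ?_, ?_⟩
    · rw [hS, mem_filter, mem_Icc]
      exact ⟨⟨hk.1, by omega⟩, hk.2⟩
    · rw [AM, mem_filter, mem_Icc]
      exact ⟨⟨by omega, hn⟩, hkn, hp⟩
  have h2 : (S.biUnion (AM N)).card ≤ S.card * Nat.primeCounting (4 * N) :=
    card_biUnion_le_card_mul _ _ _ fun k _ => am2 N k
  have h3 : (G N : ℝ) ≤ S.card * (Nat.primeCounting (4 * N) : ℝ) := by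
    exact_mod_cast h1.trans h2
  refine h3.trans ?_
  rw [mul_comm]
  refine mul_le_mul_of_nonneg_right ?_ (Nat.cast_nonneg _)
  rw [← mul_div_assoc]
  exact h N hN

end Pool.Agent.TWD
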